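import Mathlib

/-!
# Cop number versus optimal pebbling number

The incidence graph of a projective plane of order `q` has diameter `3`, hence optimal pebbling
number at most `8`; it has no triangles and no `4`-cycles and all degrees are `q + 1`, hence its cop
number is at least `q + 1`.  So the cop number is not bounded by any function of the optimal
pebbling number.
-/

namespace Pool.Agent.Results.MP_64c30f_co.CopVersusPebbling

open Finset

/-! ### Cops and robber -/

section Defs

variable {V : Type*}

/-- One move of a player: stay, or move along an edge. -/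
def Step (G : SimpleGraph V) (u v : V) : Prop := u = v ∨ G.Adj u v

/-- `k` cops have a winning strategy on `G`.  A strategy `σ` gives the initial positions `σ []` and,
after the robber has been at `r 0, …, r t`, the next positions `σ [r 0, …, r t]` of the cops.
It is winning if for every sequence `r` of moves of the robber all moves of the cops are legal, and
at some time some cop and the robber are at the same vertex (after a move of the robber, or after a
move of the cops). -/
def CopsWin (G : SimpleGraph V) (k : ℕ) : Prop :=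
  ∃ σ : List V → Fin k → V, ∀ r : ℕ → V, (∀ t, Step G (r t) (r (t + 1))) →
    (∀ t i, Step G (σ ((List.range t).map r) i) (σ ((List.range (t + 1)).map r) i)) ∧
    ∃ t i, σ ((List.range t).map r) i = r t ∨ σ ((List.range (t + 1)).map r) i = r t

/-- The cop number of `G`. -/
noncomputable def copNumber (G : SimpleGraph V) : ℕ := sInf {k | CopsWin G k}

/-! ### Optimal pebbling -/

open Classical in
/-- A pebbling move: two pebbles are removed from `v`, and one is put on a neighbour `w`. -/
def Move (G : SimpleGraph V) (D D' : V → ℕ) : Prop :=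
  ∃ v w, G.Adj v w ∧ 2 ≤ D v ∧
    D' = Function.update (Function.update D v (D v - 2)) w (D w + 1)

/-- The vertex `r` is reachable from the distribution `D`. -/
def Reachable (G : SimpleGraph V) (D : V → ℕ) (r : V) : Prop :=
  ∃ D', Relation.ReflTransGen (Move G) D D' ∧ 1 ≤ D' r

/-- The optimal pebbling number of `G`. -/
noncomputable def optimalPebbling [Fintype V] (G : SimpleGraph V) : ℕ :=
  sInf {n | ∃ D : V → ℕ, ∑ v, D v = n ∧ ∀ r, Reachable G D r}

end Defs

/-! ### Bounds for the optimal pebbling number -/

section Pebbling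

variable {V : Type*} (G : SimpleGraph V)

theorem moves (m : ℕ) {v w : V} (h : G.Adj v w) (D : V → ℕ) (hD : 2 * m ≤ D v) :
    ∃ D', Relation.ReflTransGen (Move G) D D' ∧ m ≤ D' w := by
  classical
  induction m generalizing D with
  | zero => exact ⟨D, Relation.ReflTransGen.refl, Nat.zero_le _⟩
  | succ m ih =>
    obtain ⟨D', h1, h2⟩ : ∃ D', Relation.ReflTransGen (Move G) D D' ∧
        2 * (m + 1) - 2 * (m + 1) ≤ D' v ∧ m + 1 ≤ D' w := by
      have key : ∀ j, j ≤ m + 1 → ∃ D', Relation.ReflTransGen (Move G) D D' ∧
          2 * (m + 1) - 2 * j ≤ D' v ∧ j ≤ D' w := by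
        intro j
        induction j with
        | zero => intro _; exact ⟨D, Relation.ReflTransGen.refl, by omega, Nat.zero_le _⟩
        | succ j ihj =>
          intro hj
          obtain ⟨D', h1, h2, h3⟩ := ihj (by omega)
          refine ⟨Function.update (Function.update D' v (D' v - 2)) w (D' w + 1),
            h1.tail ⟨v, w, h, by omega, rfl⟩, ?_, ?_⟩
          · rw [Function.update_of_ne h.ne, Function.update_self]
            omega
          · rw [Function.update_self]
            omega
      exact key (m + 1) le_rfl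
    exact ⟨D', h1, h2.2⟩

theorem reachable_of_walk {v r : V} (p : G.Walk v r) :
    ∀ (D : V → ℕ), 2 ^ p.length ≤ D v → Reachable G D r := by
  induction p with
  | nil => exact fun D hD => ⟨D, Relation.ReflTransGen.refl, by simpa using hD⟩
  | cons h p ih =>
    intro D hD
    rw [SimpleGraph.Walk.length_cons, pow_succ'] at hD
    obtain ⟨D', h1, h2⟩ := moves G _ h D hD
    obtain ⟨D'', h3, h4⟩ := ih D' h2
    exact ⟨D'', h1.trans h3, h4⟩

theorem optimalPebbling_le [Fintype V] (d : ℕ) (v : V)
    (h : ∀ r, ∃ p : G.Walk v r, p.length ≤ d) : optimalPebbling G ≤ 2 ^ d := by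
  classical
  refine Nat.sInf_le ⟨Pi.single v (2 ^ d), by simp, fun r => ?_⟩
  obtain ⟨p, hp⟩ := h r
  refine reachable_of_walk G p _ ?_
  rw [Pi.single_eq_same]
  exact Nat.pow_le_pow_right (by norm_num) hp

end Pebbling

/-! ### A lower bound for the cop number -/

section Cops

variable {V : Type*} (G : SimpleGraph V)

theorem copsWin_card [Fintype V] : CopsWin G (Fintype.card V) := by
  classical
  let e := (Fintype.equivFin V).symm
  refine ⟨fun _ i => e i, fun r _ => ⟨fun t i => Or.inl rfl, 0, e.symm (r 0), Or.inl ?_⟩⟩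
  simp

/-- If `G` has no triangle and no `4`-cycle and all degrees are at least `δ`, then fewer than `δ`
cops cannot dominate the neighbourhood of a vertex not occupied by a cop. -/
theorem exists_safe (h3 : ∀ a b c, G.Adj a b → G.Adj b c → ¬ G.Adj a c)
    (h4 : ∀ a b c d, a ≠ b → c ≠ d → G.Adj a c → G.Adj a d → G.Adj b c → ¬ G.Adj b d)
    {δ : ℕ} (hdeg : ∀ v, δ ≤ (G.neighborSet v).ncard) {k : ℕ} (hk : k < δ)
    (c : Fin k → V) (r : V) (hr : ∀ i, c i ≠ r) :
    ∃ u, G.Adj r u ∧ ∀ i, c i ≠ u ∧ ¬ G.Adj (c i) u := by
  classical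
  by_contra hno
  push Not at hno
  have hfin : (G.neighborSet r).Finite := by
    by_contra h
    have := hdeg r
    rw [Set.Infinite.ncard h] at this
    omega
  have hex : ∀ u, ∃ i : Option (Fin k), G.Adj r u → ∃ j, i = some j ∧ Step G (c j) u := by
    intro u
    by_cases h : G.Adj r u
    · obtain ⟨i, hi⟩ := hno u h
      refine ⟨some i, fun _ => ⟨i, rfl, ?_⟩⟩
      by_cases h' : c i = u
      · exact Or.inl h'
      · exact Or.inr (hi h')
    · exact ⟨none, fun h' => absurd h' h⟩
  choose f hf using hex
  have hinj : Set.InjOn f (G.neighborSet r) := by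
    intro u hu v hv huv
    by_contra hne
    obtain ⟨i, hi, hiu⟩ := hf u hu
    obtain ⟨j, hj, hjv⟩ := hf v hv
    have hij : i = j := by
      have := hi.symm.trans (huv.trans hj)
      simpa using this
    subst hij
    rcases hiu with hiu | hiu <;> rcases hjv with hjv | hjv
    · exact hne (hiu.symm.trans hjv)
    · rw [hiu] at hjv
      exact h3 r u v hu hjv hv
    · rw [hjv] at hiu
      exact h3 r u v hu hiu.symm hv
    · exact h4 (c i) r u v (hr i) hne hiu hjv hu hv
  have hmaps : Set.MapsTo f (G.neighborSet r) (Set.range (some : Fin k → Option (Fin k))) := by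
    intro u hu
    obtain ⟨i, hi, -⟩ := hf u hu
    exact ⟨i, hi.symm⟩
  have h1 := Set.ncard_le_ncard_of_injOn f hmaps hinj (Set.finite_range _)
  have h2 : (Set.range (some : Fin k → Option (Fin k))).ncard ≤ k := by
    rw [← Set.image_univ, Set.ncard_image_of_injective _ (Option.some_injective _), Set.ncard_univ]
    simp
  have := hdeg r
  omega

theorem not_copsWin (h3 : ∀ a b c, G.Adj a b → G.Adj b c → ¬ G.Adj a c)
    (h4 : ∀ a b c d, a ≠ b → c ≠ d → G.Adj a c → G.Adj a d → G.Adj b c → ¬ G.Adj b d)
    {δ : ℕ} (hdeg : ∀ v, δ ≤ (G.neighborSet v).ncard) (hne : Nonempty V)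
    {k : ℕ} (hk : k < δ) : ¬ CopsWin G k := by
  classical
  rintro ⟨σ, hσ⟩
  have hsafe := exists_safe G h3 h4 hdeg hk
  -- a vertex that is not the position of a cop
  have hfree : ∀ c : Fin k → V, ∃ r, ∀ i, c i ≠ r := by
    intro c
    by_contra hno
    push Not at hno
    obtain ⟨v⟩ := hne
    have h1 : (Set.range c) = Set.univ := by
      ext x
      simpa using hno x
    have h2 : (G.neighborSet v).ncard ≤ (Set.range c).ncard :=
      Set.ncard_le_ncard (by rw [h1]; exact Set.subset_univ _) (Set.finite_range _)
    have h3 : (Set.range c).ncard ≤ k := by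
      rw [← Set.image_univ]
      refine (Set.ncard_image_le (Set.finite_univ)).trans ?_
      rw [Set.ncard_univ]
      simp
    have := hdeg v
    omega
  obtain ⟨v, hv⟩ := hfree (σ [])
  obtain ⟨r0, -, hr0⟩ := hsafe (σ []) v hv
  -- the response of the robber
  have hresp : ∀ (c : Fin k → V) (r : V), ∃ u, Step G r u ∧
      ((∀ i, c i ≠ r) → ∀ i, c i ≠ u ∧ ¬ G.Adj (c i) u) := by
    intro c r
    by_cases h : ∀ i, c i ≠ r
    · obtain ⟨u, h1, h2⟩ := hsafe c r h
      exact ⟨u, Or.inr h1, fun _ => h2⟩
    · exact ⟨r, Or.inl rfl, fun h' => absurd h' h⟩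
  choose f hf1 hf2 using hresp
  let pl : ℕ → List V × V := fun t => Nat.rec ([], r0)
    (fun _ s => (s.1 ++ [s.2], f (σ (s.1 ++ [s.2])) s.2)) t
  have pl_zero : pl 0 = ([], r0) := rfl
  have pl_succ : ∀ t, pl (t + 1) =
      ((pl t).1 ++ [(pl t).2], f (σ ((pl t).1 ++ [(pl t).2])) (pl t).2) := fun t => rfl
  set r : ℕ → V := fun t => (pl t).2 with hr
  have hhist : ∀ t, (List.range t).map r = (pl t).1 := by
    intro t
    induction t with
    | zero => rfl
    | succ t ih =>
      rw [List.range_succ, List.map_append, ih, pl_succ]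
      rfl
  have hstep : ∀ t, r (t + 1) = f (σ ((List.range (t + 1)).map r)) (r t) := by
    intro t
    rw [hhist (t + 1)]
  obtain ⟨hlegal, t, i, hcap⟩ := hσ r (fun t => by rw [hstep]; exact hf1 _ _)
  have hinv : ∀ t, (∀ i, σ ((List.range t).map r) i ≠ r t ∧
      ¬ G.Adj (σ ((List.range t).map r) i) (r t)) := by
    intro t
    induction t with
    | zero => exact hr0
    | succ t ih =>
      have hne : ∀ i, σ ((List.range (t + 1)).map r) i ≠ r t := by
        intro i he
        rcases hlegal t i with h | h
        · exact (ih i).1 (h.trans he)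
        · rw [he] at h
          exact (ih i).2 h
      have := hf2 (σ ((List.range (t + 1)).map r)) (r t) hne
      rw [← hstep] at this
      exact this
  rcases hcap with h | h
  · exact (hinv t i).1 h
  · rcases hlegal t i with h' | h'
    · exact (hinv t i).1 (h'.trans h)
    · rw [h] at h'
      exact (hinv t i).2 h'

theorem le_copNumber [Fintype V] (h3 : ∀ a b c, G.Adj a b → G.Adj b c → ¬ G.Adj a c)
    (h4 : ∀ a b c d, a ≠ b → c ≠ d → G.Adj a c → G.Adj a d → G.Adj b c → ¬ G.Adj b d)
    {δ : ℕ} (hdeg : ∀ v, δ ≤ (G.neighborSet v).ncard) (hne : Nonempty V) :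
    δ ≤ copNumber G := by
  have hmem : copNumber G ∈ {k | CopsWin G k} := Nat.sInf_mem ⟨_, copsWin_card G⟩
  by_contra hlt
  exact not_copsWin G h3 h4 hdeg hne (not_le.1 hlt) hmem

end Cops

/-! ### Incidence graphs of projective planes -/

section Plane

variable (P L : Type*) [Membership P L]

/-- The incidence graph of points and lines. -/
def incidence : SimpleGraph (P ⊕ L) where
  Adj a b := match a, b with
    | Sum.inl p, Sum.inr l => p ∈ l
    | Sum.inr l, Sum.inl p => p ∈ l
    | _, _ => False
  symm := ⟨by
    rintro (p | l) (p' | l') h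
    · exact h
    · exact h
    · exact h
    · exact h⟩
  loopless := ⟨by
    rintro (p | l) h
    · exact h
    · exact h⟩

variable {P L}

theorem adj_pl {p : P} {l : L} : (incidence P L).Adj (Sum.inl p) (Sum.inr l) ↔ p ∈ l := Iff.rfl
theorem adj_lp {p : P} {l : L} : (incidence P L).Adj (Sum.inr l) (Sum.inl p) ↔ p ∈ l := Iff.rfl
theorem adj_pp {p p' : P} : (incidence P L).Adj (Sum.inl p) (Sum.inl p') ↔ False := Iff.rfl
theorem adj_ll {l l' : L} : (incidence P L).Adj (Sum.inr l) (Sum.inr l') ↔ False := Iff.rfl

theorem no_triangle (a b c : P ⊕ L) (h1 : (incidence P L).Adj a b) (h2 : (incidence P L).Adj b c) :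
    ¬ (incidence P L).Adj a c := by
  rcases a with a | a <;> rcases b with b | b <;> rcases c with c | c <;>
    simp_all [adj_pp, adj_ll]

open Configuration

theorem no_square [Nondegenerate P L] (a b c d : P ⊕ L) (hab : a ≠ b) (hcd : c ≠ d)
    (h1 : (incidence P L).Adj a c) (h2 : (incidence P L).Adj a d)
    (h3 : (incidence P L).Adj b c) : ¬ (incidence P L).Adj b d := by
  intro h4
  rcases a with a | a <;> rcases b with b | b <;> rcases c with c | c <;> rcases d with d | d <;>
    first
    | exact h1.elim
    | exact h2.elim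
    | exact h3.elim
    | exact h4.elim
    | skip
  · rcases Nondegenerate.eq_or_eq (P := P) (L := L) h1 h3 h2 h4 with h | h
    · exact hab (by rw [h])
    · exact hcd (by rw [h])
  · rcases Nondegenerate.eq_or_eq (P := P) (L := L) h1 h2 h3 h4 with h | h
    · exact hcd (by rw [h])
    · exact hab (by rw [h])

variable [ProjectivePlane P L] [Fintype P] [Fintype L]

theorem degree (v : P ⊕ L) :
    ((incidence P L).neighborSet v).ncard = ProjectivePlane.order P L + 1 := by
  rcases v with p | l
  · have h : (incidence P L).neighborSet (Sum.inl p) = Sum.inr '' {l : L | p ∈ l} := by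
      ext v
      rcases v with p' | l'
      · simp [adj_pp]
      · simp [adj_pl]
    rw [h, Set.ncard_image_of_injective _ Sum.inr_injective, ← ProjectivePlane.lineCount_eq L p]
    rfl
  · have h : (incidence P L).neighborSet (Sum.inr l) = Sum.inl '' {p : P | p ∈ l} := by
      ext v
      rcases v with p' | l'
      · simp [adj_lp]
      · simp [adj_ll]
    rw [h, Set.ncard_image_of_injective _ Sum.inl_injective, ← ProjectivePlane.pointCount_eq P l]
    rfl

theorem short_walk (p : P) (v : P ⊕ L) :
    ∃ w : (incidence P L).Walk (Sum.inl p) v, w.length ≤ 3 := by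
  classical
  have hpoint : ∀ p p' : P, ∃ w : (incidence P L).Walk (Sum.inl p) (Sum.inl p'), w.length ≤ 2 := by
    intro p p'
    by_cases h : p = p'
    · subst h
      exact ⟨SimpleGraph.Walk.nil, by simp⟩
    · obtain ⟨h1, h2⟩ := HasLines.mkLine_ax (L := L) h
      exact ⟨SimpleGraph.Walk.cons (adj_pl.2 h1)
        (SimpleGraph.Walk.cons (adj_lp.2 h2) SimpleGraph.Walk.nil), by simp⟩
  rcases v with p' | l
  · obtain ⟨w, hw⟩ := hpoint p p'
    exact ⟨w, by omega⟩
  · -- a point on `l`
    obtain ⟨p', hp'⟩ : ∃ p' : P, p' ∈ l := by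
      have h := ProjectivePlane.pointCount_eq P l
      have h2 : 0 < Nat.card {p : P // p ∈ l} := by
        have : pointCount P l = Nat.card {p : P // p ∈ l} := rfl
        omega
      obtain ⟨⟨p', hp'⟩⟩ := (Nat.card_pos_iff.1 h2).1
      exact ⟨p', hp'⟩
    obtain ⟨w, hw⟩ := hpoint p p'
    refine ⟨w.concat (adj_pl.2 hp'), ?_⟩
    rw [SimpleGraph.Walk.length_concat]
    omega

theorem plane (hne : Nonempty P) : (incidence P L).Connected ∧
    ProjectivePlane.order P L + 1 ≤ copNumber (incidence P L) ∧
    optimalPebbling (incidence P L) ≤ 8 := by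
  classical
  obtain ⟨p⟩ := hne
  refine ⟨?_, le_copNumber (incidence P L) no_triangle no_square (fun v => (degree v).ge)
    ⟨Sum.inl p⟩, optimalPebbling_le (incidence P L) 3 (Sum.inl p) (short_walk p)⟩
  have hreach : ∀ v, (incidence P L).Reachable (Sum.inl p) v := fun v =>
    let ⟨w, _⟩ := short_walk p v
    ⟨w⟩
  have : Nonempty (P ⊕ L) := ⟨Sum.inl p⟩
  exact SimpleGraph.Connected.mk fun u v => (hreach u).symm.trans (hreach v)

/-- There are projective planes of arbitrarily large order. -/
theorem exists_plane (m : ℕ) : ∃ (P L : Type) (_ : Membership P L) (_ : ProjectivePlane P L)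
    (_ : Fintype P) (_ : Fintype L), Nonempty P ∧ m ≤ ProjectivePlane.order P L + 1 := by
  obtain ⟨q, hq, hprime⟩ := Nat.exists_infinite_primes (m + 1)
  have : Fact q.Prime := ⟨hprime⟩
  classical
  have hft : Fintype (Projectivization (ZMod q) (Fin 3 → ZMod q)) := Fintype.ofFinite _
  have hcard : Nat.card (Projectivization (ZMod q) (Fin 3 → ZMod q)) = q ^ 2 + q + 1 := by
    have := Projectivization.card_of_finrank (ZMod q) (Fin 3 → ZMod q) (n := 3) (by simp)
    simp only [Finset.sum_range_succ, Finset.sum_range_zero, Nat.card_zmod] at this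
    rw [this]
    ring
  have hne : Nonempty (Projectivization (ZMod q) (Fin 3 → ZMod q)) := by
    have : 0 < Nat.card (Projectivization (ZMod q) (Fin 3 → ZMod q)) := by
      rw [hcard]; positivity
    exact (Nat.card_pos_iff.1 this).1
  have horder : m ≤ ProjectivePlane.order (Projectivization (ZMod q) (Fin 3 → ZMod q))
      (Projectivization (ZMod q) (Fin 3 → ZMod q)) + 1 := by
    have h := ProjectivePlane.card_points (P := Projectivization (ZMod q) (Fin 3 → ZMod q))
      (L := Projectivization (ZMod q) (Fin 3 → ZMod q))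
    rw [← Nat.card_eq_fintype_card, hcard] at h
    nlinarith
  exact ⟨_, _, _, _, hft, hft, hne, horder⟩

end Plane

/-- **The cop number is not bounded in terms of the optimal pebbling number.**  For every `m` there
is a finite connected graph with cop number at least `m` and optimal pebbling number at most `8`;
in particular there are graphs whose cop number is larger than the optimal pebbling number. -/
theorem result :
    (∀ m : ℕ, ∃ (V : Type) (_ : Fintype V) (G : SimpleGraph V),
      G.Connected ∧ m ≤ copNumber G ∧ optimalPebbling G ≤ 8) ∧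
    (∃ (V : Type) (_ : Fintype V) (G : SimpleGraph V),
      G.Connected ∧ optimalPebbling G < copNumber G) := by
  have main : ∀ m : ℕ, ∃ (V : Type) (_ : Fintype V) (G : SimpleGraph V),
      G.Connected ∧ m ≤ copNumber G ∧ optimalPebbling G ≤ 8 := by
    intro m
    obtain ⟨P, L, _, _, _, _, hne, h⟩ := exists_plane m
    obtain ⟨h1, h2, h3⟩ := plane (P := P) (L := L) hne
    exact ⟨P ⊕ L, inferInstance, incidence P L, h1, h.trans h2, h3⟩
  refine ⟨main, ?_⟩
  obtain ⟨V, i, G, h1, h2, h3⟩ := main 9
  exact ⟨V, i, G, h1, by omega⟩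

end Pool.Agent.Results.MP_64c30f_co.CopVersusPebbling
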